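import Pool.Agent.helper62.LL.SpecK

set_option autoImplicit false

/-! Row ll:KAT: from cylinders to boxes. -/

open scoped MatrixGroups ContDiff Topology UpperHalfPlane
open UpperHalfPlane MeasureTheory Filter Set

namespace Pool.Agent.LL

open Pool.Agent.EN (XG MG mkX mkM fl pr)

/-! ## The flow -/

theorem KAT_aM_add (s t : ℝ) : RS.aM (s + t) = RS.aM s * RS.aM t := by
  apply Subtype.ext
  rw [Matrix.SpecialLinearGroup.coe_mul]
  unfold RS.aM
  ext i j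
  fin_cases i <;> fin_cases j <;> simp [Matrix.mul_apply, Fin.sum_univ_two, ← Real.exp_add] <;> ring

theorem KAT_fl_add (Γ : Subgroup SL(2, ℝ)) (s t : ℝ) (x : XG Γ) : fl Γ (s + t) x = fl Γ s (fl Γ t x) := by
  induction x using Quotient.inductionOn with
  | h g =>
    change mkX Γ (g * RS.aM (s + t)) = mkX Γ (g * RS.aM t * RS.aM s)
    rw [add_comm, KAT_aM_add, mul_assoc]

theorem KAT_fl_zero (Γ : Subgroup SL(2, ℝ)) (x : XG Γ) : fl Γ 0 x = x := by
  induction x using Quotient.inductionOn with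
  | h g =>
    change mkX Γ (g * RS.aM 0) = mkX Γ g
    have : RS.aM 0 = 1 := by
      have h := KAT_aM_add 0 0
      rw [add_zero] at h
      exact (mul_left_cancel (a := RS.aM 0) (by rw [mul_one]; exact h)).symm
    rw [this, mul_one]

theorem KAT_fl_cont (Γ : Subgroup SL(2, ℝ)) (t : ℝ) : Continuous (fl Γ t) := by
  have h1 : Continuous (fun g : SL(2, ℝ) => mkX Γ (g * RS.aM t)) :=
    (continuous_quotient_mk' (s := MulAction.orbitRel Γ SL(2, ℝ))).comp (continuous_mul_const (RS.aM t))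
  exact continuous_quot_lift _ h1

theorem KAT_iter_pos (Γ : Subgroup SL(2, ℝ)) (n : ℕ) (x : XG Γ) : (fl Γ 1)^[n] x = fl Γ n x := by
  induction n with
  | zero => simp [KAT_fl_zero]
  | succ k ih =>
    rw [Function.iterate_succ_apply', ih, ← KAT_fl_add]
    push_cast
    rw [add_comm]

theorem KAT_iter_neg (Γ : Subgroup SL(2, ℝ)) (n : ℕ) (x : XG Γ) : (fl Γ (-1))^[n] x = fl Γ (-(n : ℝ)) x := by
  induction n with
  | zero => simp [KAT_fl_zero]
  | succ k ih =>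
    rw [Function.iterate_succ_apply', ih, ← KAT_fl_add]
    push_cast
    congr 1
    ring

theorem KAT_iter (Γ : Subgroup SL(2, ℝ)) (i n : ℕ) (x : XG Γ) :
    (fl Γ 1)^[i] ((fl Γ (-1))^[n] x) = fl Γ ((i : ℝ) - n) x := by
  rw [KAT_iter_pos, KAT_iter_neg, ← KAT_fl_add, sub_eq_add_neg]

theorem KAT_sys (Γ : Subgroup SL(2, ℝ)) (μ : Measure (XG Γ)) (hμ : ∀ t, μ.map (fl Γ t) = μ) :
    Sys μ (fl Γ 1) (fl Γ (-1)) where
  mp := ⟨(KAT_fl_cont Γ 1).measurable, hμ 1⟩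
  ms := ⟨(KAT_fl_cont Γ (-1)).measurable, hμ (-1)⟩
  ts := fun x => by rw [← KAT_fl_add, add_neg_cancel, KAT_fl_zero]
  st := fun x => by rw [← KAT_fl_add, neg_add_cancel, KAT_fl_zero]

/-! ## Boxes -/

theorem KAT_bx_mono {r τ τ' : ℝ} (h : τ ≤ τ') {q : SL(2, ℝ)} (hq : bx r τ q) : bx r τ' q :=
  ⟨hq.1, hq.2.1, hq.2.2.1.trans h, hq.2.2.2.trans h⟩

theorem KAT_Bx_mono (Γ : Subgroup SL(2, ℝ)) {r τ τ' : ℝ} (h : τ ≤ τ') (q : XG Γ) :
    Bx Γ r τ q ⊆ Bx Γ r τ' q := by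
  rintro y ⟨g, k, h1, h2, h3⟩
  exact ⟨g, k, KAT_bx_mono h h1, h2, h3⟩

/-- two points in a small box have nearby orbits for the times in `[-n, n]` -/
theorem KAT_orbit (h2 : BXR_stmt) (Γ : Subgroup SL(2, ℝ)) (hΓ : QU.SurfaceGroup Γ) (rc : ℝ) (hr0 : 0 < rc)
    (hr1 : rc ≤ 1) (n : ℕ) (q y₀ y : XG Γ) (hy₀ : y₀ ∈ Bx Γ (rc / 4) (rc / 4 * Real.exp (-n)) q)
    (hy : y ∈ Bx Γ (rc / 4) (rc / 4 * Real.exp (-n)) q) (i : ℕ) (hi : i < 2 * n + 1) :
    (fl Γ 1)^[i] ((fl Γ (-1))^[n] y) ∈ Bx Γ rc rc ((fl Γ 1)^[i] ((fl Γ (-1))^[n] y₀)) := by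
  have he : Real.exp (-(n : ℝ)) ≤ 1 := Real.exp_le_one_iff.2 (by simp)
  have he0 : 0 < Real.exp (-(n : ℝ)) := Real.exp_pos _
  have h3 := (h2 Γ (rc / 4) (rc / 4 * Real.exp (-n)) q hΓ (by positivity)
    (mul_le_of_le_one_right (by positivity) he) (by linarith)).1 y₀ y hy₀ hy
  have e1 : 4 * (rc / 4) = rc := by ring
  have e2 : 4 * (rc / 4 * Real.exp (-(n : ℝ))) = rc * Real.exp (-n) := by ring
  rw [e1, e2] at h3
  have h4 := (h2 Γ rc (rc * Real.exp (-n)) y₀ hΓ (by positivity)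
    (mul_le_of_le_one_right hr0.le he) hr1).2.1 ((i : ℝ) - n) y h3
  rw [KAT_iter, KAT_iter]
  refine KAT_Bx_mono Γ ?_ _ h4
  have h5 : |(i : ℝ) - n| ≤ n := by
    rw [abs_le]
    have : (i : ℝ) ≤ 2 * n := by exact_mod_cast Nat.lt_succ_iff.1 hi
    have h0 : (0 : ℝ) ≤ i := by positivity
    constructor <;> linarith
  calc Real.exp |(i : ℝ) - n| * (rc * Real.exp (-n)) ≤ Real.exp n * (rc * Real.exp (-n)) := by
        gcongr
    _ = rc * (Real.exp n * Real.exp (-n)) := by ring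
    _ = rc := by rw [← Real.exp_add, add_neg_cancel, Real.exp_zero, mul_one]

/-! ## Words -/

theorem KAT_words (h4 : HAM_stmt) (p N : ℕ) (w : Fin N → Fin p) (t k ε : ℝ) (ht0 : 0 < t) (ht1 : t ≤ 1)
    (hpt : p * t ≤ ε / 2) (hk : 0 < k) (hkt : 2 * k * (-Real.log t) ≤ ε / 2) :
    (({w' : Fin N → Fin p | (Finset.univ.filter (fun i => w' i ≠ w i)).card ≤ ⌊2 * k * N⌋₊}.ncard : ℕ) : ℝ) ≤
      Real.exp (ε * N) := by
  have h := h4 p N ⌊2 * k * N⌋₊ w t ht0 ht1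
  set M := ⌊2 * k * N⌋₊ with hM
  have hM1 : (M : ℝ) ≤ 2 * k * N := Nat.floor_le (by positivity)
  have hlog : Real.log t ≤ 0 := Real.log_nonpos ht0.le ht1
  have h5 : Real.exp (-(ε / 2 * N)) ≤ t ^ M := by
    have e1 : t ^ M = Real.exp (M * Real.log t) := by
      rw [mul_comm, ← Real.rpow_def_of_pos ht0, Real.rpow_natCast]
    rw [e1]
    apply Real.exp_le_exp.2
    have e2 : 2 * k * N * Real.log t ≤ M * Real.log t := mul_le_mul_of_nonpos_right hM1 hlog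
    have e3 : (2 * k * (-Real.log t)) * N ≤ ε / 2 * N := mul_le_mul_of_nonneg_right hkt (by positivity)
    linarith
  have h6 : (1 + p * t) ^ N ≤ Real.exp (ε / 2 * N) := by
    calc (1 + p * t) ^ N ≤ (Real.exp (p * t)) ^ N := by
          apply pow_le_pow_left₀ (by positivity)
          have := Real.add_one_le_exp (p * t)
          linarith
      _ = Real.exp (N * (p * t)) := (Real.exp_nat_mul _ _).symm
      _ ≤ Real.exp (ε / 2 * N) := by
          apply Real.exp_le_exp.2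
          have : (p * t) * N ≤ ε / 2 * N := mul_le_mul_of_nonneg_right hpt (by positivity)
          linarith
  set Q := (({w' : Fin N → Fin p | (Finset.univ.filter (fun i => w' i ≠ w i)).card ≤ M}.ncard : ℕ) : ℝ) with hQ
  have hQ0 : 0 ≤ Q := Nat.cast_nonneg _
  have h7 : Q * Real.exp (-(ε / 2 * N)) ≤ Real.exp (ε / 2 * N) :=
    (mul_le_mul_of_nonneg_left h5 hQ0).trans (h.trans h6)
  have h8 : Q = Q * Real.exp (-(ε / 2 * N)) * Real.exp (ε / 2 * N) := by
    rw [mul_assoc, ← Real.exp_add, neg_add_cancel, Real.exp_zero, mul_one]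
  rw [h8]
  calc Q * Real.exp (-(ε / 2 * N)) * Real.exp (ε / 2 * N) ≤ Real.exp (ε / 2 * N) * Real.exp (ε / 2 * N) := by
        gcongr
    _ = Real.exp (ε * N) := by
        rw [← Real.exp_add]
        congr 1
        ring

section abs

variable {X : Type} [MeasurableSpace X] (μ : Measure X) (T S : X → X)

theorem KAT_meas_cell {p : ℕ} (P : X → Fin p) (hT : Measurable T) (hP : Measurable P) (N : ℕ)
    (c : Fin N → Fin p) : MeasurableSet {y | ∀ i : Fin N, P (T^[i] y) = c i} := by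
  have e : {y | ∀ i : Fin N, P (T^[i] y) = c i} = ⋂ i : Fin N, (fun y => P (T^[i] y)) ⁻¹' {c i} := by
    ext y
    simp
  rw [e]
  exact MeasurableSet.iInter (fun i => (hP.comp (hT.iterate i)) (MeasurableSet.singleton _))

theorem KAT_count [IsProbabilityMeasure μ] (hs : Sys μ T S) {p : ℕ} (P : X → Fin p) (hP : Measurable P)
    (N n M : ℕ) (w : Fin N → Fin p) (A : Set X) (b : ℝ) (hb : 0 ≤ b)
    (h1 : ∀ y ∈ A, (Finset.univ.filter (fun i : Fin N => P (T^[i] (S^[n] y)) ≠ w i)).card ≤ M)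
    (h2 : ∀ y ∈ A, cyl μ T P N (S^[n] y) ≤ b) :
    μ.real A ≤ (({w' : Fin N → Fin p | (Finset.univ.filter (fun i => w' i ≠ w i)).card ≤ M}.ncard : ℕ) : ℝ) * b := by
  classical
  set W : Finset (Fin N → Fin p) :=
    Finset.univ.filter (fun w' => (Finset.univ.filter (fun i => w' i ≠ w i)).card ≤ M) with hW
  have hWn : ({w' : Fin N → Fin p | (Finset.univ.filter (fun i => w' i ≠ w i)).card ≤ M}.ncard : ℕ) = W.card := by
    rw [← Set.ncard_coe_finset]
    congr 1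
    ext w'
    simp [hW]
  rw [hWn]
  have hsub : A ⊆ ⋃ w' ∈ W, (A ∩ {z | ∀ i : Fin N, P (T^[i] (S^[n] z)) = w' i}) := by
    intro y hy
    rw [Set.mem_iUnion₂]
    refine ⟨fun i => P (T^[i] (S^[n] y)), ?_, hy, fun i => rfl⟩
    rw [hW, Finset.mem_filter]
    exact ⟨Finset.mem_univ _, h1 y hy⟩
  have hcell : ∀ w' ∈ W, μ.real (A ∩ {z | ∀ i : Fin N, P (T^[i] (S^[n] z)) = w' i}) ≤ b := by
    intro w' _
    rcases (A ∩ {z | ∀ i : Fin N, P (T^[i] (S^[n] z)) = w' i}).eq_empty_or_nonempty with he | ⟨y, hy, hyw⟩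
    · rw [he, measureReal_empty]
      exact hb
    · refine le_trans ?_ (h2 y hy)
      have hsub2 : (A ∩ {z | ∀ i : Fin N, P (T^[i] (S^[n] z)) = w' i}) ⊆
          (S^[n]) ⁻¹' {y' | ∀ i : Fin N, P (T^[i] y') = P (T^[i] (S^[n] y))} := by
        rintro z ⟨-, hz⟩ i
        have h3 : P (T^[i] (S^[n] z)) = w' i := hz i
        have h4 : P (T^[i] (S^[n] y)) = w' i := hyw i
        rw [h3, h4]
      have hpre : μ.real ((S^[n]) ⁻¹' {y' | ∀ i : Fin N, P (T^[i] y') = P (T^[i] (S^[n] y))}) =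
          cyl μ T P N (S^[n] y) := by
        unfold cyl
        rw [measureReal_def, measureReal_def, (hs.ms.iterate n).measure_preimage
          (KAT_meas_cell T P hs.mp.measurable hP N _).nullMeasurableSet]
      rw [← hpre]
      exact measureReal_mono hsub2
  calc μ.real A ≤ μ.real (⋃ w' ∈ W, (A ∩ {z | ∀ i : Fin N, P (T^[i] (S^[n] z)) = w' i})) :=
        measureReal_mono hsub (measure_ne_top _ _)
    _ ≤ ∑ w' ∈ W, μ.real (A ∩ {z | ∀ i : Fin N, P (T^[i] (S^[n] z)) = w' i}) :=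
        measureReal_biUnion_finset_le _ _
    _ ≤ ∑ _w' ∈ W, b := Finset.sum_le_sum hcell
    _ = (W.card : ℝ) * b := by rw [Finset.sum_const, nsmul_eq_mul]

theorem KAT_cyl_meas {p : ℕ} (P : X → Fin p) (hT : Measurable T) (hS : Measurable S) (hP : Measurable P) (N n : ℕ) :
    Measurable (fun x => cyl μ T P N (S^[n] x)) := by
  have e : (fun x => cyl μ T P N (S^[n] x)) =
      (fun w : Fin N → Fin p => μ.real {y | ∀ i : Fin N, P (T^[i] y) = w i}) ∘
        (fun x => fun i : Fin N => P (T^[i] (S^[n] x))) := by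
    funext x
    rfl
  rw [e]
  refine (measurable_of_finite _).comp ?_
  rw [measurable_pi_iff]
  intro i
  exact (hP.comp (hT.iterate i)).comp (hS.iterate n)

theorem KAT_exh [IsProbabilityMeasure μ] (E : ℕ → Set X) (hE : ∀ m, MeasurableSet (E m)) (ha : Antitone E) (κ : ℝ)
    (hκ : 0 < κ) (h : μ (⋂ m, E m) ≤ ENNReal.ofReal (κ / 2)) : ∃ m, μ (E m) ≤ ENNReal.ofReal κ := by
  have h1 := tendsto_measure_iInter_atTop (μ := μ) (fun m => (hE m).nullMeasurableSet) ha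
    ⟨0, measure_ne_top _ _⟩
  have h2 : μ (⋂ m, E m) < ENNReal.ofReal κ :=
    lt_of_le_of_lt h ((ENNReal.ofReal_lt_ofReal_iff hκ).2 (by linarith))
  obtain ⟨m, hm⟩ := (h1.eventually_lt_const h2).exists
  exact ⟨m, hm.le⟩

end abs

/-! ## The good set -/

/-- the good points for `n ≥ m` -/
def KAT_G {X : Type} [MeasurableSpace X] (μ : Measure X) (T S : X → X) {p : ℕ} (P : X → Fin p) (J g : X → ℝ) (ε a k : ℝ) (m : ℕ) :
    Set X :=
  {x | a < J x ∧ ∀ n : ℕ, m ≤ n →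
    cyl μ T P (2 * n + 1) (S^[n] x) ≤ Real.exp (-(((2 * n + 1 : ℕ) : ℝ) * (J x - ε))) ∧
    ∑ i ∈ Finset.range (2 * n + 1), g (T^[i] (S^[n] x)) ≤ k * ((2 * n + 1 : ℕ) : ℝ)}

theorem KAT_good {X : Type} [MeasurableSpace X] (μ : Measure X) [IsProbabilityMeasure μ] (T S : X → X) (hs : Sys μ T S)
    (hBTS : BTS_stmt) {p : ℕ} (P : X → Fin p) (hP : Measurable P) (J : X → ℝ) (hJ : Measurable J) (ε a k κ : ℝ)
    (hk : 0 < k) (hκ : 0 < κ) (U : Set X) (hU : MeasurableSet U) (hUμ : μ U ≤ ENNReal.ofReal (k * κ / 2))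
    (hc : ∀ᵐ x ∂μ, ∀ᶠ n : ℕ in atTop, cyl μ T P (2 * n + 1) (S^[n] x) ≤
      Real.exp (-(((2 * n + 1 : ℕ) : ℝ) * (J x - ε)))) :
    ∃ m : ℕ, MeasurableSet (KAT_G μ T S P J (U.indicator 1) ε a k m) ∧
      μ ({x | a < J x} \ KAT_G μ T S P J (U.indicator 1) ε a k m) ≤ ENNReal.ofReal κ := by
  set g : X → ℝ := U.indicator 1 with hg
  have hgm : Measurable g := measurable_one.indicator hU
  have hgb : ∀ x, 0 ≤ g x ∧ g x ≤ 1 := by
    intro x
    rw [hg]
    by_cases hx : x ∈ U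
    · rw [Set.indicator_of_mem hx]
      simp
    · rw [Set.indicator_of_notMem hx]
      simp
  obtain ⟨JB, hJB1, -, hJB3, hJB4, hJB5⟩ := hBTS X μ T S g 1 inferInstance hs hgm hgb
  have hT : Measurable T := hs.mp.measurable
  have hS : Measurable S := hs.ms.measurable
  -- measurability
  have hmeas : ∀ m, MeasurableSet (KAT_G μ T S P J g ε a k m) := by
    intro m
    have e : KAT_G μ T S P J g ε a k m = {x | a < J x} ∩ ⋂ n : ℕ, ⋂ _ : m ≤ n,
        ({x | cyl μ T P (2 * n + 1) (S^[n] x) ≤ Real.exp (-(((2 * n + 1 : ℕ) : ℝ) * (J x - ε)))} ∩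
        {x | ∑ i ∈ Finset.range (2 * n + 1), g (T^[i] (S^[n] x)) ≤ k * ((2 * n + 1 : ℕ) : ℝ)}) := by
      ext x
      simp only [KAT_G, Set.mem_ofPred_eq, Set.mem_inter_iff, Set.mem_iInter]
    rw [e]
    refine (measurableSet_lt measurable_const hJ).inter (MeasurableSet.iInter fun n => MeasurableSet.iInter fun _ =>
      MeasurableSet.inter (measurableSet_le (KAT_cyl_meas μ T S P hT hS hP _ _) ?_) (measurableSet_le ?_ measurable_const))
    · exact Real.measurable_exp.comp ((hJ.sub_const ε).const_mul _).neg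
    · exact Finset.measurable_sum _ (fun i _ => (hgm.comp (hT.iterate i)).comp (hS.iterate n))
  have hmono : Monotone (KAT_G μ T S P J g ε a k) := by
    intro m m' hmm x hx
    exact ⟨hx.1, fun n hn => hx.2 n (hmm.trans hn)⟩
  -- Markov
  have hint : ∫ x, g x ∂μ ≤ k * κ / 2 := by
    rw [hg, integral_indicator_one hU, measureReal_def]
    exact ENNReal.toReal_le_of_le_ofReal (by positivity) hUμ
  have hMar : μ {x | k ≤ JB x} ≤ ENNReal.ofReal (κ / 2) := by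
    have hJBi : Integrable JB μ :=
      Integrable.of_bound hJB1.aestronglyMeasurable 1 (Eventually.of_forall fun x => by
        rw [Real.norm_eq_abs, abs_le]
        exact ⟨by linarith [(hJB3 x).1], (hJB3 x).2⟩)
    have h1 := mul_meas_ge_le_integral_of_nonneg (μ := μ) (f := JB) (Eventually.of_forall fun x => (hJB3 x).1) hJBi k
    rw [hJB4] at h1
    have h2 : μ.real {x | k ≤ JB x} ≤ κ / 2 := by
      have h3 : k * μ.real {x | k ≤ JB x} ≤ k * (κ / 2) := by linarith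
      exact le_of_mul_le_mul_left h3 hk
    rw [← ofReal_measureReal]
    exact ENNReal.ofReal_le_ofReal h2
  have hE := KAT_exh μ (fun m => {x | a < J x} \ KAT_G μ T S P J g ε a k m)
    (fun m => (measurableSet_lt measurable_const hJ).diff (hmeas m))
    (fun m m' hmm => Set.sdiff_subset_sdiff_right (hmono hmm)) κ hκ (by
      have hnull : μ {x | ¬ ((∀ᶠ n : ℕ in atTop, cyl μ T P (2 * n + 1) (S^[n] x) ≤
          Real.exp (-(((2 * n + 1 : ℕ) : ℝ) * (J x - ε)))) ∧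
          Tendsto (fun n : ℕ => (∑ i ∈ Finset.range (2 * n + 1), g (T^[i] (S^[n] x))) / ((2 * n + 1 : ℕ) : ℝ))
            atTop (𝓝 (JB x)))} = 0 := ae_iff.1 (hc.and hJB5)
      refine (measure_mono (t := {x | k ≤ JB x} ∪ {x | ¬ ((∀ᶠ n : ℕ in atTop, cyl μ T P (2 * n + 1) (S^[n] x) ≤
          Real.exp (-(((2 * n + 1 : ℕ) : ℝ) * (J x - ε)))) ∧
          Tendsto (fun n : ℕ => (∑ i ∈ Finset.range (2 * n + 1), g (T^[i] (S^[n] x))) / ((2 * n + 1 : ℕ) : ℝ))
            atTop (𝓝 (JB x)))}) ?_).trans ((measure_union_le _ _).trans (by rw [hnull, add_zero]; exact hMar))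
      intro x hx
      rw [Set.mem_iInter] at hx
      by_contra hcon
      rw [Set.mem_union, not_or] at hcon
      obtain ⟨hc1, hc2⟩ := hcon
      rw [Set.mem_ofPred_eq, not_le] at hc1
      rw [Set.mem_ofPred_eq, not_not] at hc2
      obtain ⟨h5, h6⟩ := hc2
      have h7 := h6.eventually_lt_const hc1
      obtain ⟨m, hm⟩ := eventually_atTop.1 (h5.and h7)
      refine (hx m).2 ⟨(hx m).1, fun n hn => ⟨(hm n hn).1, ?_⟩⟩
      have h8 := (hm n hn).2
      rw [div_lt_iff₀ (by positivity)] at h8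
      exact h8.le)
  obtain ⟨m, hm⟩ := hE
  exact ⟨m, hmeas m, hm⟩

/-- one box -/
theorem KAT_box (h2 : BXR_stmt) (h4 : HAM_stmt) (Γ : Subgroup SL(2, ℝ)) (μ : Measure (XG Γ)) (p : ℕ)
    (P : XG Γ → Fin p) (J : XG Γ → ℝ) (ε a : ℝ) (hΓ : QU.SurfaceGroup Γ) [IsProbabilityMeasure μ]
    (hμ : ∀ t, μ.map (fl Γ t) = μ) (hP : Measurable P) (hεa : 2 * ε ≤ a)
    (t k : ℝ) (ht0 : 0 < t) (ht1 : t ≤ 1) (hpt : p * t ≤ ε / 2) (hk : 0 < k) (hkt : 2 * k * (-Real.log t) ≤ ε / 2)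
    (C : Fin p → Set (XG Γ)) (rc : ℝ) (hr0 : 0 < rc) (hr1 : rc ≤ 1) (hCP : ∀ i, C i ⊆ P ⁻¹' {i})
    (hC : ∀ (i j : Fin p) (x y : XG Γ), x ∈ C i → y ∈ C j → y ∈ Bx Γ rc rc x → i = j) (m n : ℕ) (hmn : m ≤ n)
    (q : XG Γ) :
    μ.real (KAT_G μ (fl Γ 1) (fl Γ (-1)) P J ((⋃ i, C i)ᶜ.indicator 1) ε a k m ∩
      Bx Γ (rc / 4) (rc / 4 * Real.exp (-n)) q) ≤ Real.exp (-(2 * n * (a - 2 * ε))) := by
  classical
  set A := KAT_G μ (fl Γ 1) (fl Γ (-1)) P J ((⋃ i, C i)ᶜ.indicator 1) ε a k m ∩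
      Bx Γ (rc / 4) (rc / 4 * Real.exp (-n)) q with hA
  rcases A.eq_empty_or_nonempty with he | ⟨y₀, hy₀⟩
  · rw [he, measureReal_empty]
    exact (Real.exp_pos _).le
  set T := fl Γ 1 with hT
  set S := fl Γ (-1) with hS
  set g : XG Γ → ℝ := (⋃ i, C i)ᶜ.indicator 1 with hg
  set N : ℕ := 2 * n + 1 with hN
  have hgn : ∀ x, 0 ≤ g x := by
    intro x
    rw [hg]
    exact Set.indicator_nonneg (fun _ _ => by simp) x
  have hsys := KAT_sys Γ μ hμ
  have hcount := KAT_count μ T S hsys P hP N n ⌊2 * k * N⌋₊ (fun i => P (T^[i] (S^[n] y₀))) A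
    (Real.exp (-((N : ℝ) * (a - ε)))) (Real.exp_pos _).le
    (by
      intro y hy
      apply Nat.le_floor
      have hb : ∀ i : Fin N, (if P (T^[i] (S^[n] y)) ≠ P (T^[i] (S^[n] y₀)) then (1 : ℝ) else 0) ≤
          g (T^[i] (S^[n] y)) + g (T^[i] (S^[n] y₀)) := by
        intro i
        split_ifs with hne
        · by_contra hcon
          push Not at hcon
          have n1 : T^[i] (S^[n] y) ∉ (⋃ i, C i)ᶜ := by
            intro hmem
            have e1 : g (T^[i] (S^[n] y)) = 1 := by rw [hg, Set.indicator_of_mem hmem]; rfl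
            linarith [hgn (T^[i] (S^[n] y₀))]
          have n2 : T^[i] (S^[n] y₀) ∉ (⋃ i, C i)ᶜ := by
            intro hmem
            have e1 : g (T^[i] (S^[n] y₀)) = 1 := by rw [hg, Set.indicator_of_mem hmem]; rfl
            linarith [hgn (T^[i] (S^[n] y))]
          rw [Set.notMem_compl_iff, Set.mem_iUnion] at n1 n2
          obtain ⟨j1, hj1⟩ := n1
          obtain ⟨j2, hj2⟩ := n2
          have horb := KAT_orbit h2 Γ hΓ rc hr0 hr1 n q y₀ y hy₀.2 hy.2 i i.2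
          have e3 := hC j2 j1 _ _ hj2 hj1 horb
          have e4 : P (T^[i] (S^[n] y)) = j1 := hCP j1 hj1
          have e5 : P (T^[i] (S^[n] y₀)) = j2 := hCP j2 hj2
          exact hne (by rw [e4, e5, e3])
        · exact add_nonneg (hgn _) (hgn _)
      have hs1 : ((Finset.univ.filter (fun i : Fin N => P (T^[i] (S^[n] y)) ≠ P (T^[i] (S^[n] y₀)))).card : ℝ) =
          ∑ i : Fin N, (if P (T^[i] (S^[n] y)) ≠ P (T^[i] (S^[n] y₀)) then (1 : ℝ) else 0) := by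
        rw [Finset.sum_boole]
      rw [hs1]
      have hv1 := (hy.1.2 n hmn).2
      have hv2 := (hy₀.1.2 n hmn).2
      rw [Finset.sum_range] at hv1 hv2
      calc ∑ i : Fin N, (if P (T^[i] (S^[n] y)) ≠ P (T^[i] (S^[n] y₀)) then (1 : ℝ) else 0)
          ≤ ∑ i : Fin N, (g (T^[i] (S^[n] y)) + g (T^[i] (S^[n] y₀))) := Finset.sum_le_sum (fun i _ => hb i)
        _ = ∑ i : Fin N, g (T^[i] (S^[n] y)) + ∑ i : Fin N, g (T^[i] (S^[n] y₀)) := Finset.sum_add_distrib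
        _ ≤ k * (N : ℝ) + k * (N : ℝ) := add_le_add hv1 hv2
        _ = 2 * k * (N : ℝ) := by ring)
    (by
      intro y hy
      refine ((hy.1.2 n hmn).1).trans (Real.exp_le_exp.2 ?_)
      have h5 : a < J y := hy.1.1
      have h6 : (0 : ℝ) ≤ (N : ℝ) := Nat.cast_nonneg _
      have h7 : (N : ℝ) * (a - ε) ≤ (N : ℝ) * (J y - ε) := mul_le_mul_of_nonneg_left (by linarith) h6
      linarith)
  have hwords := KAT_words h4 p N (fun i => P (T^[i] (S^[n] y₀))) t k ε ht0 ht1 hpt hk hkt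
  refine hcount.trans ((mul_le_mul_of_nonneg_right hwords (Real.exp_pos _).le).trans ?_)
  rw [← Real.exp_add]
  apply Real.exp_le_exp.2
  have hN2 : (N : ℝ) = 2 * n + 1 := by
    rw [hN]
    push_cast
    ring
  rw [hN2]
  have h8 : 0 ≤ a - 2 * ε := by linarith
  nlinarith

/-- real radii -/
theorem KAT_real (r τ δ : ℝ) (hr : 0 < r) (hτ : 0 < τ) (hτr : τ ≤ r) (hδ : 0 ≤ δ) :
    ∃ n : ℕ, τ ≤ r * Real.exp (-n) ∧
      Real.exp (-(2 * n * δ)) ≤ (Real.exp 1 / r) ^ (2 * δ) * τ ^ (2 * δ) := by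
  have h1 : 1 ≤ r / τ := (one_le_div hτ).2 hτr
  have h2 : 0 ≤ Real.log (r / τ) := Real.log_nonneg h1
  have hrτ : 0 < r / τ := by positivity
  set n := ⌊Real.log (r / τ)⌋₊ with hn
  have h3 : (n : ℝ) ≤ Real.log (r / τ) := Nat.floor_le h2
  have h4 : Real.log (r / τ) < n + 1 := Nat.lt_floor_add_one _
  refine ⟨n, ?_, ?_⟩
  · have h5 : Real.exp n ≤ r / τ := by
      rw [← Real.exp_log hrτ]
      exact Real.exp_le_exp.2 h3
    rw [le_div_iff₀ hτ] at h5
    rw [Real.exp_neg, ← div_eq_mul_inv, le_div_iff₀ (Real.exp_pos _)]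
    linarith
  · have h6 : Real.exp (-(n : ℝ)) ≤ Real.exp 1 / r * τ := by
      have h7 : r / τ ≤ Real.exp (n + 1) := by
        rw [← Real.exp_log hrτ]
        exact Real.exp_le_exp.2 h4.le
      rw [div_le_iff₀ hτ] at h7
      rw [Real.exp_add] at h7
      rw [Real.exp_neg, inv_le_comm₀ (Real.exp_pos _) (by positivity)]
      rw [div_mul_eq_mul_div, inv_div, div_le_iff₀ (by positivity)]
      linarith
    calc Real.exp (-(2 * n * δ)) = (Real.exp (-(n : ℝ))) ^ (2 * δ) := by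
          rw [← Real.exp_mul]
          congr 1
          ring
      _ ≤ (Real.exp 1 / r * τ) ^ (2 * δ) :=
          Real.rpow_le_rpow (Real.exp_pos _).le h6 (by linarith)
      _ = (Real.exp 1 / r) ^ (2 * δ) * τ ^ (2 * δ) := Real.mul_rpow (by positivity) hτ.le

theorem KAT_proof (h1 : BTS_stmt) (h2 : BXR_stmt) (h3 : COR_stmt) (h4 : HAM_stmt) : KAT_stmt := by
  intro Γ μ p P J ε a κ hΓ hprob hμ hP hJ hε hκ hεa hc
  have := hprob
  -- the constants
  set t : ℝ := min 1 (ε / (2 * (p + 1))) with ht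
  have ht0 : 0 < t := lt_min one_pos (by positivity)
  have ht1 : t ≤ 1 := min_le_left _ _
  have hpt : p * t ≤ ε / 2 := by
    have h5 : t ≤ ε / (2 * (p + 1)) := min_le_right _ _
    have hp0 : (0 : ℝ) ≤ p := Nat.cast_nonneg _
    calc p * t ≤ (p + 1) * (ε / (2 * (p + 1))) := by
          apply mul_le_mul (by linarith) h5 ht0.le (by positivity)
      _ = ε / 2 := by field_simp
  have hlt : 0 ≤ -Real.log t := by
    have := Real.log_nonpos ht0.le ht1
    linarith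
  set k : ℝ := ε / (4 * (-Real.log t + 1)) with hk
  have hk0 : 0 < k := by positivity
  have hkt : 2 * k * (-Real.log t) ≤ ε / 2 := by
    have e1 : 2 * k * (-Real.log t + 1) = ε / 2 := by
      rw [hk]
      field_simp
      ring
    have e2 : 2 * k * (-Real.log t) ≤ 2 * k * (-Real.log t + 1) :=
      mul_le_mul_of_nonneg_left (by linarith) (by positivity)
    linarith
  obtain ⟨C, rc, hr0, hr1, hC1, hC2, hC3, hC4⟩ := h3 Γ μ p P (k * κ / 2) hΓ hprob hP (by positivity)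
  have hsys := KAT_sys Γ μ hμ
  obtain ⟨m, hm1, hm2⟩ := KAT_good μ (fl Γ 1) (fl Γ (-1)) hsys h1 P hP J hJ ε a k κ hk0 hκ (⋃ i, C i)ᶜ
    (MeasurableSet.iUnion fun i => (hC1 i).measurableSet).compl hC3 hc
  set 𝒢 := KAT_G μ (fl Γ 1) (fl Γ (-1)) P J ((⋃ i, C i)ᶜ.indicator 1) ε a k m with h𝒢
  have hδ : 0 ≤ a - 2 * ε := by linarith
  refine ⟨𝒢, rc / 4, Real.exp (2 * m * (a - 2 * ε)) * (Real.exp 1 / (rc / 4)) ^ (2 * (a - 2 * ε)), hm1,
    fun x hx => hx.1, hm2, by positivity, by linarith, ?_⟩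
  intro q τ hτ0 hτ1
  obtain ⟨n, hn1, hn2⟩ := KAT_real (rc / 4) τ (a - 2 * ε) (by positivity) hτ0 hτ1 hδ
  have hstep : μ.real (𝒢 ∩ Bx Γ (rc / 4) (rc / 4 * Real.exp (-n)) q) ≤
      Real.exp (2 * m * (a - 2 * ε)) * Real.exp (-(2 * n * (a - 2 * ε))) := by
    rcases le_or_gt m n with hmn | hmn
    · have h5 := KAT_box h2 h4 Γ μ p P J ε a hΓ hμ hP hεa t k ht0 ht1 hpt hk0 hkt C rc hr0 hr1 hC2 hC4 m n hmn q
      refine h5.trans (le_mul_of_one_le_left (Real.exp_pos _).le ?_)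
      exact Real.one_le_exp (by positivity)
    · refine (measureReal_le_one).trans ?_
      rw [← Real.exp_add]
      apply Real.one_le_exp
      have h6 : (n : ℝ) ≤ m := by exact_mod_cast hmn.le
      nlinarith
  calc μ.real (𝒢 ∩ Bx Γ (rc / 4) τ q) ≤ μ.real (𝒢 ∩ Bx Γ (rc / 4) (rc / 4 * Real.exp (-n)) q) :=
        measureReal_mono (Set.inter_subset_inter_right _ (KAT_Bx_mono Γ hn1 q)) (measure_ne_top _ _)
    _ ≤ Real.exp (2 * m * (a - 2 * ε)) * Real.exp (-(2 * n * (a - 2 * ε))) := hstep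
    _ ≤ Real.exp (2 * m * (a - 2 * ε)) * ((Real.exp 1 / (rc / 4)) ^ (2 * (a - 2 * ε)) * τ ^ (2 * (a - 2 * ε))) :=
        mul_le_mul_of_nonneg_left hn2 (Real.exp_pos _).le
    _ = Real.exp (2 * m * (a - 2 * ε)) * (Real.exp 1 / (rc / 4)) ^ (2 * (a - 2 * ε)) * τ ^ (2 * (a - 2 * ε)) := by
        ring

end Pool.Agent.LL
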